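import Pool.Agent.W_MP_c8c3c9_al.Basic

set_option autoImplicit false

namespace Pool.Agent.W_MP_c8c3c9_al

open W

/-- The vector part of the generating element. -/
def v0 : Fin 4 → ZMod 105 := ![15, 15, 21, 70]

/-- The permutation part of the generating element. -/
def k0 : Equiv.Perm (Fin 4) := Equiv.swap 0 1

/-- The generating element. -/
def g0 : W := ⟨v0, k0⟩

theorem v0_comp : v0 ∘ k0.symm = v0 := by decide

theorem g0_sq : g0 * g0 = T (2 • v0) := by
  apply W.ext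
  · funext i
    simp only [mul_v, g0, T]
    have h : v0 (k0.symm i) = v0 i := congrFun v0_comp i
    rw [h, Pi.smul_apply, two_nsmul]
  · simp only [mul_s, g0, T]
    decide

theorem g0_pow_even (m : ℕ) : g0 ^ (2 * m) = T ((2 * m) • v0) := by
  rw [pow_mul, pow_two, g0_sq, T_pow, ← mul_nsmul]

/-- The normal closure of the generating element. -/
def N : Subgroup W := Subgroup.normalClosure {g0}

instance : N.Normal := by
  unfold N
  infer_instance

theorem g0_mem : g0 ∈ N := Subgroup.subset_normalClosure (Set.mem_singleton _)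

theorem M_add {u w : Fin 4 → ZMod 105} (hu : T u ∈ N) (hw : T w ∈ N) : T (u + w) ∈ N := by
  rw [← T_mul]
  exact N.mul_mem hu hw

theorem M_neg {u : Fin 4 → ZMod 105} (hu : T u ∈ N) : T (-u) ∈ N := by
  rw [← T_inv]
  exact N.inv_mem hu

theorem M_nsmul {u : Fin 4 → ZMod 105} (n : ℕ) (hu : T u ∈ N) : T (n • u) ∈ N := by
  rw [← T_pow]
  exact N.pow_mem hu n

theorem M_comp {u : Fin 4 → ZMod 105} (s : Equiv.Perm (Fin 4)) (hu : T u ∈ N) :
    T (u ∘ s.symm) ∈ N := by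
  rw [← S_conj_T]
  exact Subgroup.Normal.conj_mem inferInstance _ hu _

theorem Tv0_mem : T v0 ∈ N := by
  have h : T (2 • v0) ∈ N := by
    rw [← g0_sq]
    exact N.mul_mem g0_mem g0_mem
  have h2 := M_nsmul 53 h
  have h3 : 53 • (2 • v0) = v0 := by decide
  rw [h3] at h2
  exact h2

theorem root_mem : T (![0, -1, 1, 0] : Fin 4 → ZMod 105) ∈ N := by
  have ha := M_add Tv0_mem (M_neg (M_comp (Equiv.swap 1 2) Tv0_mem))
  have key : ∃ s : Equiv.Perm (Fin 4),
      (v0 + -(v0 ∘ (Equiv.swap 2 3 : Equiv.Perm (Fin 4)).symm)) ∘ s.symm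
        + -(8 • (v0 + -(v0 ∘ (Equiv.swap 1 2 : Equiv.Perm (Fin 4)).symm)))
        = ![0, -1, 1, 0] := by
    decide
  obtain ⟨s, hs⟩ := key
  rw [← hs]
  exact M_add (M_comp s (M_add Tv0_mem (M_neg (M_comp _ Tv0_mem)))) (M_neg (M_nsmul 8 ha))

theorem e0_mem : T (![1, 0, 0, 0] : Fin 4 → ZMod 105) ∈ N := by
  have key1 : ∃ s : Equiv.Perm (Fin 4),
      (![0, -1, 1, 0] : Fin 4 → ZMod 105) ∘ s.symm = ![1, -1, 0, 0] := by decide
  have key2 : ∃ s : Equiv.Perm (Fin 4),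
      (![0, -1, 1, 0] : Fin 4 → ZMod 105) ∘ s.symm = ![1, 0, -1, 0] := by decide
  have key3 : ∃ s : Equiv.Perm (Fin 4),
      (![0, -1, 1, 0] : Fin 4 → ZMod 105) ∘ s.symm = ![1, 0, 0, -1] := by decide
  obtain ⟨s1, h1⟩ := key1
  obtain ⟨s2, h2⟩ := key2
  obtain ⟨s3, h3⟩ := key3
  have m1 := M_comp s1 root_mem
  have m2 := M_comp s2 root_mem
  have m3 := M_comp s3 root_mem
  rw [h1] at m1
  rw [h2] at m2
  rw [h3] at m3
  have h := M_nsmul 46 (M_add (M_add (M_add Tv0_mem (M_nsmul 15 m1)) (M_nsmul 21 m2))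
    (M_nsmul 70 m3))
  have e : 46 • (v0 + 15 • (![1, -1, 0, 0] : Fin 4 → ZMod 105)
      + 21 • (![1, 0, -1, 0] : Fin 4 → ZMod 105)
      + 70 • (![1, 0, 0, -1] : Fin 4 → ZMod 105)) = ![1, 0, 0, 0] := by decide +kernel
  rw [e] at h
  exact h

theorem e_mem (i : Fin 4) : T (Pi.single i 1 : Fin 4 → ZMod 105) ∈ N := by
  have key : ∀ i : Fin 4, ∃ s : Equiv.Perm (Fin 4),
      (![1, 0, 0, 0] : Fin 4 → ZMod 105) ∘ s.symm = Pi.single i 1 := by decide
  obtain ⟨s, hs⟩ := key i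
  rw [← hs]
  exact M_comp s e0_mem

theorem T_mem (u : Fin 4 → ZMod 105) : T u ∈ N := by
  have h : u = (u 0).val • (Pi.single 0 1 : Fin 4 → ZMod 105)
      + (u 1).val • (Pi.single 1 1 : Fin 4 → ZMod 105)
      + (u 2).val • (Pi.single 2 1 : Fin 4 → ZMod 105)
      + (u 3).val • (Pi.single 3 1 : Fin 4 → ZMod 105) := by
    funext i
    fin_cases i <;> simp only [Pi.add_apply, Pi.smul_apply] <;> simp
  rw [h]
  exact M_add (M_add (M_add (M_nsmul _ (e_mem 0)) (M_nsmul _ (e_mem 1)))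
    (M_nsmul _ (e_mem 2))) (M_nsmul _ (e_mem 3))

theorem S_mem (s : Equiv.Perm (Fin 4)) : S s ∈ N := by
  have hk : S k0 ∈ N := by
    have h : S k0 = (T v0)⁻¹ * g0 := by
      rw [eq_inv_mul_iff_mul_eq, T_mul_S]
      rfl
    rw [h]
    exact N.mul_mem (N.inv_mem Tv0_mem) g0_mem
  have key : ∀ s : Equiv.Perm (Fin 4), ∃ a b c : Equiv.Perm (Fin 4),
      s = (a * k0 * a⁻¹) * (b * k0 * b⁻¹) * (c * k0 * c⁻¹) ∨
      s = (a * k0 * a⁻¹) * (b * k0 * b⁻¹) := by
    decide +kernel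
  have hc : ∀ a : Equiv.Perm (Fin 4), S (a * k0 * a⁻¹) ∈ N := by
    intro a
    rw [← S_mul, ← S_mul, ← S_inv]
    exact Subgroup.Normal.conj_mem inferInstance _ hk _
  obtain ⟨a, b, c, h | h⟩ := key s
  · rw [h, ← S_mul, ← S_mul]
    exact N.mul_mem (N.mul_mem (hc a) (hc b)) (hc c)
  · rw [h, ← S_mul]
    exact N.mul_mem (hc a) (hc b)

theorem N_top : Subgroup.normalClosure {g0} = ⊤ := by
  rw [eq_top_iff]
  intro x _
  have h : x = T x.v * S x.s := by
    rw [T_mul_S]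
  rw [h]
  exact N.mul_mem (T_mem _) (S_mem _)

theorem Tcomm_iff (u : Fin 4 → ZMod 105) (z : W) :
    T u * z = z * T u ↔ u ∘ z.s.symm = u := by
  constructor
  · intro h
    funext i
    have h1 := congrArg (fun w : W => w.v i) h
    simp only [mul_v, T] at h1
    have h2 : (1 : Equiv.Perm (Fin 4)).symm i = i := rfl
    rw [h2, add_comm] at h1
    exact (add_left_cancel h1).symm
  · intro h
    apply W.ext
    · funext i
      simp only [mul_v, T]
      have h2 : (1 : Equiv.Perm (Fin 4)).symm i = i := rfl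
      have h3 : u (z.s.symm i) = u i := congrFun h i
      rw [h2, h3, add_comm]
    · simp [mul_s, T]

theorem cover (z : Cls g0) :
    (70 • v0) ∘ z.1.s.symm = 70 • v0 ∨ (42 • v0) ∘ z.1.s.symm = 42 • v0 ∨
      (30 • v0) ∘ z.1.s.symm = 30 • v0 := by
  obtain ⟨h, hh⟩ := z.2
  have e : z.1.s = h.s * k0 * h.s⁻¹ := by
    rw [← hh]
    rfl
  rw [e]
  generalize h.s = t
  revert t
  decide +kernel

theorem witness (t : Equiv.Perm (Fin 4)) : ∃ z : Cls g0, z.1.s = t * k0 * t⁻¹ :=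
  ⟨⟨S t * g0 * (S t)⁻¹, S t, rfl⟩, rfl⟩

theorem not_all (m : ℕ) (hm : m = 70 ∨ m = 42 ∨ m = 30) :
    ∃ z : Cls g0, ¬ (m • v0) ∘ z.1.s.symm = m • v0 := by
  have key : ∀ m : ℕ, (m = 70 ∨ m = 42 ∨ m = 30) →
      ∃ t : Equiv.Perm (Fin 4), ¬ (m • v0) ∘ (t * k0 * t⁻¹).symm = m • v0 := by
    intro m hm
    rcases hm with rfl | rfl | rfl
    · decide +kernel
    · decide +kernel
    · decide +kernel
  obtain ⟨t, ht⟩ := key m hm
  obtain ⟨z, hz⟩ := witness t
  refine ⟨z, ?_⟩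
  rw [hz]
  exact ht

/-- The base point of the class. -/
def base : Cls g0 := ⟨g0, 1, by simp⟩

theorem comm_iff (m : ℕ) (hm : m = 70 ∨ m = 42 ∨ m = 30) (z : Cls g0) :
    Function.minimalPeriod (Shelf.act base) z ∣ m ↔
      (m • v0) ∘ z.1.s.symm = m • v0 := by
  rw [period_dvd_iff, ← Tcomm_iff]
  have h : g0 ^ m = T (m • v0) := by
    rcases hm with rfl | rfl | rfl
    · exact g0_pow_even 35
    · exact g0_pow_even 21
    · exact g0_pow_even 15
  show g0 ^ m * z.1 = z.1 * g0 ^ m ↔ _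
  rw [h]

theorem main :
    ¬ (∀ (X : Type) [Rack X] [Finite X],
      (∀ y z : X, Relation.EqvGen (fun a b : X => ∃ x : X, Shelf.act x a = b) y z) →
      ∀ x : X, ∃ w : X, ∀ z : X,
        Function.minimalPeriod (Shelf.act x) z ∣ Function.minimalPeriod (Shelf.act x) w) := by
  intro H
  have : Finite (Cls g0) := by
    unfold Cls
    infer_instance
  obtain ⟨w, hw⟩ := H (Cls g0) (connected g0 N_top) base
  have key : ∀ m : ℕ, (m = 70 ∨ m = 42 ∨ m = 30) →
      (m • v0) ∘ w.1.s.symm = m • v0 → False := by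
    intro m hm h
    have h1 := (comm_iff m hm w).mpr h
    obtain ⟨z, hz⟩ := not_all m hm
    exact hz ((comm_iff m hm z).mp (dvd_trans (hw z) h1))
  rcases cover w with h | h | h
  · exact key 70 (Or.inl rfl) h
  · exact key 42 (Or.inr (Or.inl rfl)) h
  · exact key 30 (Or.inr (Or.inr rfl)) h

end Pool.Agent.W_MP_c8c3c9_al
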