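import Mathlib

set_option autoImplicit false

namespace Pool.Agent.W_MP_c8c3c9_al

section Generic

variable {G : Type} [Group G]

/-- The conjugacy class of `g`, as a type. -/
def Cls (g : G) : Type := {x : G // ∃ h : G, h * g * h⁻¹ = x}

instance instRackCls (g : G) : Rack (Cls g) where
  act x y := ⟨x.1 * y.1 * x.1⁻¹, by
    obtain ⟨h, hh⟩ := y.2
    exact ⟨x.1 * h, by rw [← hh]; group⟩⟩
  self_distrib := by
    intro x y z
    apply Subtype.ext
    simp only
    group
  invAct x y := ⟨x.1⁻¹ * y.1 * x.1, by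
    obtain ⟨h, hh⟩ := y.2
    exact ⟨x.1⁻¹ * h, by rw [← hh]; group⟩⟩
  left_inv := by
    intro x y
    apply Subtype.ext
    simp only
    group
  right_inv := by
    intro x y
    apply Subtype.ext
    simp only
    group

theorem act_val (g : G) (x y : Cls g) : (Shelf.act x y).1 = x.1 * y.1 * x.1⁻¹ := rfl

theorem iterate_act (g : G) (x z : Cls g) (m : ℕ) :
    ((Shelf.act x)^[m] z).1 = x.1 ^ m * z.1 * (x.1 ^ m)⁻¹ := by
  induction m with
  | zero => simp
  | succ n ih =>
    rw [Function.iterate_succ_apply', act_val, ih, pow_succ']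
    group

theorem period_dvd_iff (g : G) (x z : Cls g) (m : ℕ) :
    Function.minimalPeriod (Shelf.act x) z ∣ m ↔ x.1 ^ m * z.1 = z.1 * x.1 ^ m := by
  rw [← Function.isPeriodicPt_iff_minimalPeriod_dvd]
  unfold Function.IsPeriodicPt Function.IsFixedPt
  constructor
  · intro h
    have h1 : ((Shelf.act x)^[m] z).1 = z.1 := by rw [h]
    rw [iterate_act] at h1
    exact mul_inv_eq_iff_eq_mul.mp h1
  · intro h
    apply Subtype.ext
    rw [iterate_act]
    exact mul_inv_eq_iff_eq_mul.mpr h

/-- The relation generated by the rack translations. -/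
def Rel (g : G) (a b : Cls g) : Prop := ∃ x : Cls g, Shelf.act x a = b

/-- Conjugation of a class element by a group element. -/
def cj (g : G) (h : G) (a : Cls g) : Cls g := ⟨h * a.1 * h⁻¹, by
    obtain ⟨k, hk⟩ := a.2
    exact ⟨h * k, by rw [← hk]; group⟩⟩

theorem cj_mul (g : G) (h k : G) (a : Cls g) : cj g (h * k) a = cj g h (cj g k a) := by
  apply Subtype.ext
  simp only [cj]
  group

/-- The subgroup of all group elements that keep every class element in its component. -/
def compSub (g : G) : Subgroup G where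
  carrier := {h | ∀ a : Cls g, Relation.EqvGen (Rel g) a (cj g h a)}
  mul_mem' := by
    intro h k hh hk a
    rw [cj_mul]
    exact Relation.EqvGen.trans _ _ _ (hk a) (hh _)
  one_mem' := by
    intro a
    have : cj g 1 a = a := by
      apply Subtype.ext
      simp [cj]
    rw [this]
    exact Relation.EqvGen.refl _
  inv_mem' := by
    intro h hh a
    have h1 := hh (cj g h⁻¹ a)
    rw [← cj_mul] at h1
    have : cj g (h * h⁻¹) a = a := by
      apply Subtype.ext
      simp [cj]
    rw [this] at h1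
    exact Relation.EqvGen.symm _ _ h1

theorem normalClosure_le_compSub (g : G) : Subgroup.normalClosure {g} ≤ compSub g := by
  unfold Subgroup.normalClosure
  rw [Subgroup.closure_le]
  intro x hx a
  rw [Group.mem_conjugatesOfSet_iff] at hx
  obtain ⟨b, hb, hc⟩ := hx
  rw [Set.mem_singleton_iff] at hb
  subst hb
  obtain ⟨h, hh⟩ := isConj_iff.mp hc
  apply Relation.EqvGen.rel
  refine ⟨⟨x, h, hh⟩, ?_⟩
  apply Subtype.ext
  rfl

theorem connected (g : G) (hg : Subgroup.normalClosure {g} = ⊤) (y z : Cls g) :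
    Relation.EqvGen (fun a b : Cls g => ∃ x : Cls g, Shelf.act x a = b) y z := by
  obtain ⟨h, hh⟩ := y.2
  obtain ⟨k, hk⟩ := z.2
  have hmem : k * h⁻¹ ∈ compSub g := by
    apply normalClosure_le_compSub
    rw [hg]
    exact Subgroup.mem_top _
  have h1 := hmem y
  have h2 : cj g (k * h⁻¹) y = z := by
    apply Subtype.ext
    simp only [cj]
    rw [← hh, ← hk]
    group
  rw [h2] at h1
  exact h1

end Generic

/-- Elements of the wreath product of the cyclic group of order 105 by the symmetric group on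
four letters. -/
@[ext] structure W where
  v : Fin 4 → ZMod 105
  s : Equiv.Perm (Fin 4)

namespace W

instance : Mul W := ⟨fun a b => ⟨fun i => a.v i + b.v (a.s.symm i), a.s * b.s⟩⟩
instance : One W := ⟨⟨fun _ => 0, 1⟩⟩
instance : Inv W := ⟨fun a => ⟨fun i => - a.v (a.s i), a.s⁻¹⟩⟩

theorem mul_v (a b : W) (i : Fin 4) : (a * b).v i = a.v i + b.v (a.s.symm i) := rfl
theorem mul_s (a b : W) : (a * b).s = a.s * b.s := rfl
theorem one_v (i : Fin 4) : (1 : W).v i = 0 := rfl
theorem one_s : (1 : W).s = 1 := rfl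
theorem inv_v (a : W) (i : Fin 4) : (a⁻¹).v i = - a.v (a.s i) := rfl
theorem inv_s (a : W) : (a⁻¹).s = a.s⁻¹ := rfl

instance : Group W := Group.ofLeftAxioms
  (by
    intro a b c
    apply W.ext
    · funext i
      simp only [mul_v, mul_s]
      rw [add_assoc]
      rfl
    · simp only [mul_s, mul_assoc])
  (by
    intro a
    apply W.ext
    · funext i
      simp only [mul_v, one_v, one_s, zero_add]
      rfl
    · simp only [mul_s, one_s, one_mul])
  (by
    intro a
    apply W.ext
    · funext i
      simp only [mul_v, inv_v, inv_s, one_v]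
      have : (a.s⁻¹).symm i = a.s i := rfl
      rw [this]
      ring
    · simp only [mul_s, one_s, inv_s, inv_mul_cancel])

/-- `W` as a product. -/
def equivProd : W ≃ (Fin 4 → ZMod 105) × Equiv.Perm (Fin 4) where
  toFun a := (a.v, a.s)
  invFun p := ⟨p.1, p.2⟩
  left_inv _ := rfl
  right_inv _ := rfl

instance : Finite W := Finite.of_equiv _ equivProd.symm

/-- translations -/
def T (u : Fin 4 → ZMod 105) : W := ⟨u, 1⟩
/-- permutations -/
def S (s : Equiv.Perm (Fin 4)) : W := ⟨0, s⟩

theorem T_mul (u w : Fin 4 → ZMod 105) : T u * T w = T (u + w) := by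
  apply W.ext
  · funext i; rfl
  · simp [mul_s, T]

theorem T_inv (u : Fin 4 → ZMod 105) : (T u)⁻¹ = T (-u) := by
  apply W.ext
  · funext i; rfl
  · simp [inv_s, T]

theorem T_pow (u : Fin 4 → ZMod 105) (n : ℕ) : (T u) ^ n = T (n • u) := by
  induction n with
  | zero => simp; rfl
  | succ n ih => rw [pow_succ, ih, T_mul, succ_nsmul]

theorem S_mul (s t : Equiv.Perm (Fin 4)) : S s * S t = S (s * t) := by
  apply W.ext
  · funext i; simp [mul_v, S]
  · simp [mul_s, S]

theorem S_inv (s : Equiv.Perm (Fin 4)) : (S s)⁻¹ = S s⁻¹ := by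
  apply W.ext
  · funext i; simp [inv_v, S]
  · simp [inv_s, S]

theorem T_mul_S (u : Fin 4 → ZMod 105) (s : Equiv.Perm (Fin 4)) : T u * S s = ⟨u, s⟩ := by
  apply W.ext
  · funext i; simp [mul_v, S, T]
  · simp [mul_s, S, T]

theorem S_conj_T (s : Equiv.Perm (Fin 4)) (u : Fin 4 → ZMod 105) :
    S s * T u * (S s)⁻¹ = T (u ∘ s.symm) := by
  apply W.ext
  · funext i
    simp [mul_v, mul_s, inv_v, S, T]
  · simp [mul_s, inv_s, S, T]

end W

end Pool.Agent.W_MP_c8c3c9_al
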